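import Pool.Agent.Q266.PPFinal

set_option autoImplicit false

namespace Pool.Agent.Results.MP_74cbe5_co.UnboundedDiameter

/-- `G` is path-pairable: for every pairing `{s i, t i}` of all the vertices there are pairwise
edge-disjoint paths joining `s i` to `t i`. -/
def PathPairable {V : Type} (G : SimpleGraph V) : Prop :=
  ∀ (k : ℕ) (s t : Fin k → V), Function.Bijective (Sum.elim s t) →
    ∃ P : ∀ i, G.Walk (s i) (t i), (∀ i, (P i).IsPath) ∧
      ∀ i j, i ≠ j → ∀ e, e ∈ (P i).edges → e ∉ (P j).edges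

/-- Negative answer to Q1, for every `ε < 1/4`: path-pairable graphs on `n` vertices (`n` even)
with at most `(2 - ε) n` edges have unbounded diameter. -/
theorem result : ∀ ε : ℝ, 0 < ε → ε < 1 / 4 →
    (∀ d : ℕ, ∃ (V : Type) (_ : Fintype V) (G : SimpleGraph V), Even (Fintype.card V) ∧
      PathPairable G ∧ (G.edgeSet.ncard : ℝ) ≤ (2 - ε) * Fintype.card V ∧ G.Connected ∧
      d ≤ G.diam) ∧
    ¬ ∃ f : ℕ, ∀ (V : Type) [Fintype V] (G : SimpleGraph V), Even (Fintype.card V) →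
      PathPairable G → (G.edgeSet.ncard : ℝ) ≤ (2 - ε) * Fintype.card V → G.diam ≤ f := by
  intro ε h1 h2
  refine ⟨Pool.Agent.Q266.PP.main ε h1 h2, ?_⟩
  rintro ⟨f, hf⟩
  obtain ⟨V, i1, G, a, b, c, _, e⟩ := Pool.Agent.Q266.PP.main ε h1 h2 (f + 1)
  have := @hf V i1 G a b c
  omega

end Pool.Agent.Results.MP_74cbe5_co.UnboundedDiameter
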